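import Pool.Agent.MWGQ.Stmts

/-! Row FOR of squad MWGQ: the form of the instances, all periods (twin of the row MWGN.FOR of
helper53). -/

set_option autoImplicit false

namespace Pool.Agent.MWGQ.H86

open Pool.Agent.Helper14_MV Pool.Agent.Helper2_MV
open Pool.Agent.MWK (pre)
open Pool.Agent.MWF (gaml)
open Pool.Agent.MWGN (Nm WC WT Tau Ns nl sg nn N1 N2 K0 Kb Kc T2 gh gh_succ)

lemma fac (f : ℕ → List ℕ) (l : List ℕ) (c : ℕ) (h : c ∈ l) :
    ∃ A B, l.flatMap f = A ++ (f c ++ B) := by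
  obtain ⟨s, t, hl⟩ := List.append_of_mem h
  refine ⟨s.flatMap f, t.flatMap f, ?_⟩
  rw [hl, List.flatMap_append, List.flatMap_cons]

lemma pw_flatMap (f : ℕ → List ℕ) (k : ℕ) (u : List ℕ) :
    (pw k u).flatMap f = pw k (u.flatMap f) := by
  induction k with
  | zero => rfl
  | succ k ih =>
    unfold pw at ih ⊢
    rw [List.replicate_succ, List.replicate_succ, List.flatten_cons, List.flatten_cons,
      List.flatMap_append, ih]

lemma bd_gh (n : ℕ) (f : ℕ → List ℕ) (L C : ℕ → ℕ) (g h : ℕ → List ℕ) : ∀ N : ℕ,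
    (∀ i < N, g i = f (L i)) → (∀ i < N, h i = pw (n + 1) (f (C i))) →
      (bd n (sg L) (sg C) N).flatMap f = gh g h N := by
  intro N
  induction N with
  | zero =>
    intro _ _
    rfl
  | succ N ih =>
    intro h1 h2
    have e : bd n (sg L) (sg C) (N + 1) =
        bd n (sg L) (sg C) N ++ ([L N] ++ pw (n + 1) [C N]) := by
      simp [bd, sg, List.range_succ]
    rw [e, gh_succ, List.flatMap_append,
      ih (fun i hi => h1 i (by omega)) (fun i hi => h2 i (by omega)), h1 N (by omega),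
      h2 N (by omega), List.flatMap_append, pw_flatMap]
    simp

lemma t1m (n m : ℕ) : T1 n m m = N1.L m :: (bd n (sg (N2 m).L) (sg (N2 m).C) (m + 1) ++
    [(N2 m).L (m + 1), N1.L (m + 1)]) := by
  simp [T1]

lemma t2m (m : ℕ) : T2 m m = [(N2 m).L m, (N2 m).L (m + 1)] := by
  simp [T2]

lemma mem_t1 (n : ℕ) (τ : List ℕ) (m : ℕ) (hτ : Tau τ m) (i : ℕ) (hi : i ≤ m + 1) :
    N1.L i ∈ τ.flatMap (fun i => N1.S i :: T1 n m i) := by
  rcases Nat.lt_or_ge m i with h | h
  · have e : i = m + 1 := by omega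
    subst e
    refine List.mem_flatMap.2 ⟨m, (hτ.2 m).2 le_rfl, ?_⟩
    rw [t1m]
    simp
  · refine List.mem_flatMap.2 ⟨i, (hτ.2 i).2 h, ?_⟩
    by_cases e : i = m
    · subst e
      rw [t1m]
      simp
    · simp [T1, e]

lemma mem_t2 (τ : List ℕ) (m : ℕ) (hτ : Tau τ m) (i : ℕ) (hi : i ≤ m + 1) :
    (N2 m).L i ∈ τ.flatMap (fun i => (N2 m).S i :: T2 m i) := by
  rcases Nat.lt_or_ge m i with h | h
  · have e : i = m + 1 := by omega
    subst e
    refine List.mem_flatMap.2 ⟨m, (hτ.2 m).2 le_rfl, ?_⟩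
    rw [t2m]
    simp
  · refine List.mem_flatMap.2 ⟨i, (hτ.2 i).2 h, ?_⟩
    by_cases e : i = m
    · subst e
      rw [t2m]
      simp
    · simp [T2, e]

/-- the first part -/
theorem for1 (n : ℕ) (τ : List ℕ) (m : ℕ) (hτ : Tau τ m) (f : ℕ → List ℕ) (o' : Bool) :
    ∃ H : List ℕ,
    (∀ o : Bool, (w0 n τ m o o').flatMap f = (if o then f 0 ++ f 1 else f 1 ++ f 0) ++ (f 2 ++ (f 0 ++
      (gh (fun i => if i < m then f (N1.L i) else if decide (i = m) = o' then f (N1.L m) else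
          f (N1.L (m + 1)))
        (fun i => if i < m then pw (n + 1) (f (N1.C i)) else []) (m + 2) ++ (f 1 ++ H))))) ∧
    (∀ i ≤ m + 1, ∃ H1 H2, H = H1 ++ (f (N1.L i) ++ H2)) ∧
    (∃ H1 H2 H3, H = H1 ++ (f (N1.L m) ++ (H2 ++ (f (N1.L (m + 1)) ++ H3)))) := by
  obtain ⟨τ1, τ2, ht⟩ := List.append_of_mem ((hτ.2 m).2 le_rfl)
  refine ⟨f 3 ++ ((τ.flatMap (fun i => N1.S i :: T1 n m i)).flatMap f ++ (f 4 ++
    (τ.flatMap (fun i => (N2 m).S i :: T2 m i)).flatMap f)), ?_, ?_, ?_⟩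
  · intro o
    rw [gh_succ, gh_succ, ← bd_gh n f N1.L N1.C (fun i => if i < m then f (N1.L i) else
      if decide (i = m) = o' then f (N1.L m) else f (N1.L (m + 1)))
        (fun i => if i < m then pw (n + 1) (f (N1.C i)) else []) m
        (fun i hi => by simp [hi]) (fun i hi => by simp [hi])]
    cases o <;> cases o' <;> simp [w0, ww, List.flatMap_append, List.append_assoc]
  · intro i hi
    obtain ⟨A, B, hAB⟩ := fac f _ _ (mem_t1 n τ m hτ i hi)
    refine ⟨f 3 ++ A, B ++ (f 4 ++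
      (τ.flatMap (fun i => (N2 m).S i :: T2 m i)).flatMap f), ?_⟩
    rw [hAB]
    simp only [List.append_assoc]
  · refine ⟨f 3 ++ ((τ1.flatMap (fun i => N1.S i :: T1 n m i)).flatMap f ++ f (N1.S m)),
      (bd n (sg (N2 m).L) (sg (N2 m).C) (m + 1)).flatMap f ++ f ((N2 m).L (m + 1)),
      (τ2.flatMap (fun i => N1.S i :: T1 n m i)).flatMap f ++ (f 4 ++
      (τ.flatMap (fun i => (N2 m).S i :: T2 m i)).flatMap f), ?_⟩
    have e : τ.flatMap (fun i => N1.S i :: T1 n m i) = τ1.flatMap (fun i => N1.S i :: T1 n m i) ++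
        (N1.S m :: N1.L m :: (bd n (sg (N2 m).L) (sg (N2 m).C) (m + 1) ++
          ((N2 m).L (m + 1) :: N1.L (m + 1) :: τ2.flatMap (fun i => N1.S i :: T1 n m i)))) := by
      rw [ht, List.flatMap_append, List.flatMap_cons, t1m]
      simp
    rw [e]
    simp only [List.flatMap_append, List.flatMap_cons, List.append_assoc]

/-- the second part -/
theorem for2 (n : ℕ) (τ : List ℕ) (m : ℕ) (hτ : Tau τ m) (f : ℕ → List ℕ) (o : Bool) :
    ∃ P F H : List ℕ,
    (∀ o' : Bool, (w0 n τ m o o').flatMap f = P ++ ((if o' then f (N1.L m) ++ f (N1.L (m + 1)) else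
      f (N1.L (m + 1)) ++ f (N1.L m)) ++ (F ++ (f (N1.L m) ++
      (gh (fun i => f ((N2 m).L i)) (fun i => if i < m + 1 then pw (n + 1) (f ((N2 m).C i))
        else []) (m + 2) ++ (f (N1.L (m + 1)) ++ H)))))) ∧
    (∀ i ≤ m + 1, ∃ H1 H2, H = H1 ++ (f ((N2 m).L i) ++ H2)) ∧
    (∃ H1 H2, H = H1 ++ (f ((N2 m).L m) ++ (f ((N2 m).L (m + 1)) ++ H2))) := by
  obtain ⟨τ1, τ2, ht⟩ := List.append_of_mem ((hτ.2 m).2 le_rfl)
  refine ⟨(if o then f 0 ++ f 1 else f 1 ++ f 0) ++ (f 2 ++ (f 0 ++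
    (bd n (sg N1.L) (sg N1.C) m).flatMap f)),
    f 1 ++ (f 3 ++ ((τ1.flatMap (fun i => N1.S i :: T1 n m i)).flatMap f ++ f (N1.S m))),
    (τ2.flatMap (fun i => N1.S i :: T1 n m i)).flatMap f ++ (f 4 ++
      (τ.flatMap (fun i => (N2 m).S i :: T2 m i)).flatMap f), ?_, ?_, ?_⟩
  · intro o'
    have e : τ.flatMap (fun i => N1.S i :: T1 n m i) = τ1.flatMap (fun i => N1.S i :: T1 n m i) ++
        (N1.S m :: N1.L m :: (bd n (sg (N2 m).L) (sg (N2 m).C) (m + 1) ++
          ((N2 m).L (m + 1) :: N1.L (m + 1) :: τ2.flatMap (fun i => N1.S i :: T1 n m i)))) := by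
      rw [ht, List.flatMap_append, List.flatMap_cons, t1m]
      simp
    rw [gh_succ, ← bd_gh n f (N2 m).L (N2 m).C (fun i => f ((N2 m).L i))
        (fun i => if i < m + 1 then pw (n + 1) (f ((N2 m).C i)) else []) (m + 1)
        (fun i hi => rfl) (fun i hi => by simp [hi])]
    rw [w0, ww, e]
    cases o <;> cases o' <;>
      simp only [List.flatMap_append, List.flatMap_cons, List.flatMap_nil, List.append_assoc,
        List.append_nil, if_true, if_false, Bool.false_eq_true, lt_irrefl]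
  · intro i hi
    obtain ⟨A, B, hAB⟩ := fac f _ _ (mem_t2 τ m hτ i hi)
    refine ⟨(τ2.flatMap (fun i => N1.S i :: T1 n m i)).flatMap f ++ (f 4 ++ A), B, ?_⟩
    rw [hAB]
    simp only [List.append_assoc]
  · refine ⟨(τ2.flatMap (fun i => N1.S i :: T1 n m i)).flatMap f ++ (f 4 ++
      ((τ1.flatMap (fun i => (N2 m).S i :: T2 m i)).flatMap f ++ f ((N2 m).S m))),
      (τ2.flatMap (fun i => (N2 m).S i :: T2 m i)).flatMap f, ?_⟩
    have e : τ.flatMap (fun i => (N2 m).S i :: T2 m i) =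
        τ1.flatMap (fun i => (N2 m).S i :: T2 m i) ++
        ((N2 m).S m :: (N2 m).L m :: (N2 m).L (m + 1) ::
          τ2.flatMap (fun i => (N2 m).S i :: T2 m i)) := by
      rw [ht, List.flatMap_append, List.flatMap_cons, t2m]
      simp
    rw [e]
    simp only [List.flatMap_append, List.flatMap_cons, List.append_assoc]

theorem for_ : ForStmt := by
  intro n τ m hτ f
  exact ⟨fun o' => for1 n τ m hτ f o', fun o => for2 n τ m hτ f o⟩

end Pool.Agent.MWGQ.H86
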